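import Pool.Agent.Lib.MP_a2b075_al.Conv3

set_option autoImplicit false
open scoped Pointwise

namespace Pool.Agent.Results.MP_a2b075_al.SaturatedIff

/-- Let `F` be an isomorphism closed class of finite soluble groups which is a formation and a
Fitting class and has Kegel's property (the seven hypotheses are those of the problem).
(1) Let `G` be finite, `N` normal in `G`, `N ≤ Φ(G)` and `G/N` in `F`. If for all primes `p ≠ q`
dividing `|G/N|` the Hall `{p,q}`-subgroups of `G/N` lie in `F`, then `G` lies in `F`.
(2) If `F` is saturated, then every subgroup of a member of `F` is a member of `F`.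
So `F` is saturated iff it is closed under Hall `{p,q}`-subgroups, iff it is closed under
subgroups. -/
theorem result :
    ∀ F : ∀ (G : Type) [Group G], Prop,
      (∀ (G H : Type) [Group G] [Group H] [Finite G] [Finite H], (G ≃* H) → F G → F H) →
      (∀ (G : Type) [Group G] [Finite G], F G → IsSolvable G) →
      (∀ (G : Type) [Group G] [Finite G] (N : Subgroup G) [N.Normal], F G → F (G ⧸ N)) →
      (∀ (G : Type) [Group G] [Finite G] (N M : Subgroup G) [N.Normal] [M.Normal],
          F (G ⧸ N) → F (G ⧸ M) → F (G ⧸ (N ⊓ M))) →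
      (∀ (G : Type) [Group G] [Finite G] (N : Subgroup G), N.Normal → F G → F ↥N) →
      (∀ (G : Type) [Group G] [Finite G] (N M : Subgroup G), N.Normal → M.Normal →
          N ⊔ M = ⊤ → F ↥N → F ↥M → F G) →
      (∀ (G : Type) [Group G] [Finite G] (A B C : Subgroup G),
          (A : Set G) * (B : Set G) = Set.univ → (B : Set G) * (C : Set G) = Set.univ →
          (C : Set G) * (A : Set G) = Set.univ → F ↥A → F ↥B → F ↥C → F G) →
      (∀ (G : Type) [Group G] [Finite G] (N : Subgroup G) [N.Normal],
        N ≤ frattini G → F (G ⧸ N) →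
        (∀ p q : ℕ, p.Prime → q.Prime → p ≠ q → p ∣ Nat.card (G ⧸ N) → q ∣ Nat.card (G ⧸ N) →
          ∀ H : Subgroup (G ⧸ N), (∀ r : ℕ, r.Prime → r ∣ Nat.card H → r = p ∨ r = q) →
            ¬ p ∣ H.index → ¬ q ∣ H.index → F ↥H) →
        F G) ∧
      ((∀ (G : Type) [Group G] [Finite G] (N : Subgroup G) [N.Normal],
          N ≤ frattini G → F (G ⧸ N) → F G) →
        ∀ (G : Type) [Group G] [Finite G] (H : Subgroup G), F G → F ↥H) := by
  intro F h1 h2 h3 h4 h5 h6 h7
  have hF := Pool.Agent.KegelFF.KF.mk h1 h2 h3 h4 h5 h6 h7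
  refine ⟨?_, ?_⟩
  · intro G _ _ N _ hN h hyp
    exact hF.main N hN h hyp
  · intro hsat G _ _ H hG
    exact hF.subgroup_closed hsat hG H

end Pool.Agent.Results.MP_a2b075_al.SaturatedIff
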